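import Pool.Agent.KDT.StmtsK
import Pool.Agent.Helper98_SZT.CNT

set_option autoImplicit false

/-!
# KDT, row GDD: the double translation (helper85)
-/

namespace Pool.Agent.KDT.H85

open Polynomial NumberField H58Q Pool.Agent.SZT Pool.Agent.SZT.H98

section

variable {K : Type} [Field K]

/-- the square of the ideal of a root. -/
theorem sq_I (mii : MiiStatement) {f : K[X]} (h2 : (2 : K) ≠ 0) (hsq : Squarefree f) {t : K}
    (ht : f.IsRoot t) :
    MI f (X - C t) 0 * MI f (X - C t) 0 = Ideal.span {(⟨X - C t, 0⟩ : Q K f)} := by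
  have h1 := mii K f (X - C t) 0 h2 hsq (by
    have : (0 : K[X]) ^ 2 - f = - f := by ring
    rw [this]
    exact (dvd_neg).mpr (dvd_iff_isRoot.mpr ht))
  rwa [neg_zero] at h1

theorem lin_ne (f : K[X]) (t : K) : (⟨X - C t, 0⟩ : Q K f) ≠ 0 := by
  intro h
  have h1 := congrArg QuadraticAlgebra.re h
  exact X_sub_C_ne_zero t h1

/-- product of two ideals of divisors of `f`. -/
theorem mul_cop (f A₁ A₂ : K[X]) (h : IsCoprime A₁ A₂) :
    MI f A₁ 0 * MI f A₂ 0 = MI f (A₁ * A₂) 0 ∨ ¬ A₁ * A₂ ∣ f := by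
  by_cases hd : A₁ * A₂ ∣ f
  · left
    obtain ⟨q, hq⟩ := hd
    obtain ⟨u, v, huv⟩ := h
    apply le_antisymm
    · unfold MI
      rw [Ideal.span_pair_mul_span_pair, Ideal.span_le, Set.insert_subset_iff,
        Set.insert_subset_iff, Set.insert_subset_iff, Set.singleton_subset_iff]
      have g1 : (⟨A₁ * A₂, 0⟩ : Q K f) ∈ Ideal.span {(⟨A₁ * A₂, 0⟩ : Q K f), ⟨-0, 1⟩} :=
        Ideal.subset_span (by simp)
      have g2 : (⟨-0, 1⟩ : Q K f) ∈ Ideal.span {(⟨A₁ * A₂, 0⟩ : Q K f), ⟨-0, 1⟩} :=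
        Ideal.subset_span (by simp)
      refine ⟨?_, Ideal.mul_mem_left _ _ g2, Ideal.mul_mem_right _ _ g2,
        Ideal.mul_mem_left _ _ g2⟩
      have e : (⟨A₁, 0⟩ : Q K f) * ⟨A₂, 0⟩ = ⟨A₁ * A₂, 0⟩ := by
        apply QuadraticAlgebra.ext
        · simp only [QuadraticAlgebra.re_mul]
          ring
        · simp only [QuadraticAlgebra.im_mul]
          ring
      rw [e]
      exact g1
    · unfold MI
      rw [Ideal.span_le, Set.insert_subset_iff, Set.singleton_subset_iff]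
      have a1 : (⟨A₁, 0⟩ : Q K f) ∈ Ideal.span {(⟨A₁, 0⟩ : Q K f), ⟨-0, 1⟩} :=
        Ideal.subset_span (by simp)
      have a2 : (⟨A₂, 0⟩ : Q K f) ∈ Ideal.span {(⟨A₂, 0⟩ : Q K f), ⟨-0, 1⟩} :=
        Ideal.subset_span (by simp)
      have y1 : (⟨-0, 1⟩ : Q K f) ∈ Ideal.span {(⟨A₁, 0⟩ : Q K f), ⟨-0, 1⟩} :=
        Ideal.subset_span (by simp)
      have y2 : (⟨-0, 1⟩ : Q K f) ∈ Ideal.span {(⟨A₂, 0⟩ : Q K f), ⟨-0, 1⟩} :=
        Ideal.subset_span (by simp)
      constructor
      · have e : (⟨A₁ * A₂, 0⟩ : Q K f) = (⟨A₁, 0⟩ : Q K f) * ⟨A₂, 0⟩ := by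
          apply QuadraticAlgebra.ext
          · simp only [QuadraticAlgebra.re_mul]
            ring
          · simp only [QuadraticAlgebra.im_mul]
            ring
        rw [e]
        exact Ideal.mul_mem_mul a1 a2
      · have e : (⟨-0, 1⟩ : Q K f) = ⟨u, 0⟩ * (⟨A₁, 0⟩ * ⟨-0, 1⟩) +
            ⟨v, 0⟩ * (⟨-0, 1⟩ * ⟨A₂, 0⟩) := by
          apply QuadraticAlgebra.ext
          · simp only [QuadraticAlgebra.re_mul, QuadraticAlgebra.im_mul, QuadraticAlgebra.re_add]
            ring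
          · simp only [QuadraticAlgebra.re_mul, QuadraticAlgebra.im_mul, QuadraticAlgebra.im_add]
            linear_combination -huv
        have m := Ideal.add_mem _ (Ideal.mul_mem_left _ ⟨u, 0⟩ (Ideal.mul_mem_mul a1 y2))
          (Ideal.mul_mem_left _ ⟨v, 0⟩ (Ideal.mul_mem_mul y1 a2))
        exact (congrArg (fun z : Q K f => z ∈ Ideal.span {(⟨A₁, 0⟩ : Q K f), ⟨-0, 1⟩} *
          Ideal.span {(⟨A₂, 0⟩ : Q K f), ⟨-0, 1⟩}) e).mpr m
  · right
    exact hd

theorem MI_ff (f : K[X]) : MI f f 0 = Ideal.span {(⟨0, 1⟩ : Q K f)} := by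
  unfold MI
  apply le_antisymm
  · rw [Ideal.span_le, Set.insert_subset_iff, Set.singleton_subset_iff]
    constructor
    · have e : (⟨f, 0⟩ : Q K f) = (⟨0, 1⟩ : Q K f) * ⟨0, 1⟩ := by
        apply QuadraticAlgebra.ext
        · simp only [QuadraticAlgebra.re_mul]
          ring
        · simp only [QuadraticAlgebra.im_mul]
          ring
      rw [e]
      exact Ideal.mul_mem_left _ _ (Ideal.mem_span_singleton_self _)
    · rw [neg_zero]
      exact Ideal.mem_span_singleton_self _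
  · rw [Ideal.span_le, Set.singleton_subset_iff]
    refine Ideal.subset_span ?_
    rw [neg_zero]
    simp

theorem cop_roots {f A : K[X]} (hf : f ≠ 0) (hs : f.Splits)
    (h : ∀ x, f.IsRoot x → A.eval x ≠ 0) : IsCoprime A f := by
  refine isCoprime_of_irreducible_dvd (fun h0 => hf h0.2) ?_
  intro z hz hzA hzf
  have hd : z.degree = 1 := (hs.of_dvd hf hzf).degree_eq_one_of_irreducible hz
  obtain ⟨x, hx⟩ := exists_root_of_degree_eq_one hd
  refine h x (hx.dvd hzf) ?_
  exact hx.dvd hzA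

/-- the class relation of a translation. -/
theorem sc_trl (mii : MiiStatement) {f A B A' B' V : K[X]} {a : K} (h2 : (2 : K) ≠ 0)
    (hsq : Squarefree f) [IsDomain (Q K f)] (h : Trl f A B a A' B' V) :
    SameCl (MI f A' B') (MI f A B * MI f (X - C a) 0) := by
  refine ⟨⟨-V, 1⟩, ⟨A', 0⟩, ?_, ?_, ?_⟩
  · intro h0
    have h1 := congrArg QuadraticAlgebra.im h0
    exact one_ne_zero h1
  · intro h0
    have h1 := congrArg QuadraticAlgebra.re h0
    exact h.mum.monic.ne_zero h1
  · rw [← h.idl, ← mii K f A' B' h2 hsq h.mum.dvd]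
    ring

/-- cancellation of the ideal of a root. -/
theorem sc_cancel (mii : MiiStatement) {f : K[X]} (h2 : (2 : K) ≠ 0) (hsq : Squarefree f)
    [IsDomain (Q K f)] {t : K} (ht : f.IsRoot t) {I J : Ideal (Q K f)}
    (h : SameCl I (MI f (X - C t) 0 * J)) : SameCl (I * MI f (X - C t) 0) J := by
  have h1 : SameCl (I * MI f (X - C t) 0) (MI f (X - C t) 0 * J * MI f (X - C t) 0) :=
    sc_mul h (sc_refl _)
  have e : MI f (X - C t) 0 * J * MI f (X - C t) 0 =
      Ideal.span {(⟨X - C t, 0⟩ : Q K f)} * J := by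
    rw [← sq_I mii h2 hsq ht]
    ring
  rw [e] at h1
  exact sc_trans h1 (sc_mul_span _ (lin_ne f t))

theorem sc_cancel' (mii : MiiStatement) {f : K[X]} (h2 : (2 : K) ≠ 0) (hsq : Squarefree f)
    [IsDomain (Q K f)] {t : K} (ht : f.IsRoot t) {I J : Ideal (Q K f)}
    (h : SameCl (I * MI f (X - C t) 0 * MI f (X - C t) 0) J) : SameCl I J := by
  rw [mul_assoc, sq_I mii h2 hsq ht, mul_comm] at h
  exact sc_trans (sc_symm (sc_mul_span _ (lin_ne f t))) h

/-- the derivative at a root. -/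
theorem der_ne {f : K[X]} (hsq : Squarefree f) {a : K} (ha : f.IsRoot a) :
    (derivative f).eval a ≠ 0 := by
  intro h0
  obtain ⟨q, hq⟩ := dvd_iff_isRoot.mpr ha
  have h1 : q.eval a = 0 := by
    rw [hq] at h0
    simpa using h0
  obtain ⟨r, hr⟩ := dvd_iff_isRoot.mpr (show q.IsRoot a from h1)
  have h3 : IsUnit (X - C a) := hsq (X - C a) ⟨r, by rw [hq, hr]; ring⟩
  exact not_isUnit_X_sub_C a h3

theorem root_of_dvd_lin {f : K[X]} {A : K[X]} {x : K} (h : A ∣ f) (hx : A.IsRoot x) :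
    f.IsRoot x := hx.dvd h

/-- two of the five ideals against the other three. -/
theorem three_two {f : K[X]} (mii : MiiStatement) (h2 : (2 : K) ≠ 0) (hfm : f.Monic)
    (hf5 : f.natDegree = 5) (hsq : Squarefree f) (hs : f.Splits) [IsDomain (Q K f)]
    {a b t : K} (ha : f.IsRoot a) (hb : f.IsRoot b) (ht : f.IsRoot t) (hab : a ≠ b) (hta : t ≠ a)
    (htb : t ≠ b) : ∃ d e : K, f.IsRoot d ∧ f.IsRoot e ∧ d ≠ e ∧
      SameCl (MI f (X - C d) 0 * MI f (X - C e) 0)
        (MI f (X - C a) 0 * MI f (X - C b) 0 * MI f (X - C t) 0) := by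
  have cab : IsCoprime (X - C a) (X - C b) := isCoprime_X_sub_C_of_isUnit_sub
    (sub_ne_zero.mpr hab).isUnit
  have cat : IsCoprime (X - C a) (X - C t) := isCoprime_X_sub_C_of_isUnit_sub
    (sub_ne_zero.mpr hta.symm).isUnit
  have cbt : IsCoprime (X - C b) (X - C t) := isCoprime_X_sub_C_of_isUnit_sub
    (sub_ne_zero.mpr htb.symm).isUnit
  have cabt : IsCoprime ((X - C a) * (X - C b)) (X - C t) := cat.mul_left cbt
  have hd3 : (X - C a) * (X - C b) * (X - C t) ∣ f :=
    cabt.mul_dvd (cab.mul_dvd (dvd_iff_isRoot.mpr ha) (dvd_iff_isRoot.mpr hb))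
      (dvd_iff_isRoot.mpr ht)
  obtain ⟨q, hq⟩ := hd3
  have hm3 : ((X - C a) * (X - C b) * (X - C t)).Monic :=
    ((monic_X_sub_C a).mul (monic_X_sub_C b)).mul (monic_X_sub_C t)
  have hn3 : ((X - C a) * (X - C b) * (X - C t)).natDegree = 3 := by
    rw [((monic_X_sub_C a).mul (monic_X_sub_C b)).natDegree_mul (monic_X_sub_C t),
      (monic_X_sub_C a).natDegree_mul (monic_X_sub_C b)]
    simp only [natDegree_X_sub_C]
  have hqm : q.Monic := by
    rw [hq] at hfm
    exact hm3.of_mul_monic_left hfm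
  have hqn : q.natDegree = 2 := by
    have h1 := congrArg natDegree hq
    rw [hm3.natDegree_mul hqm, hn3, hf5] at h1
    omega
  have hf0 : f ≠ 0 := hfm.ne_zero
  have hqf : q ∣ f := Dvd.intro_left _ hq.symm
  have hqs : q.Splits := hs.of_dvd hf0 hqf
  obtain ⟨d, hd⟩ := hqs.exists_eval_eq_zero (by
    rw [degree_eq_natDegree hqm.ne_zero, hqn]
    exact two_ne_zero)
  obtain ⟨r, hr⟩ := dvd_iff_isRoot.mpr (show q.IsRoot d from hd)
  have hrm : r.Monic := by
    rw [hr] at hqm
    exact (monic_X_sub_C d).of_mul_monic_left hqm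
  have hrn : r.natDegree = 1 := by
    have h1 := congrArg natDegree hr
    rw [(monic_X_sub_C d).natDegree_mul hrm, natDegree_X_sub_C, hqn] at h1
    omega
  have hre : r = X - C (-r.coeff 0) := by
    rw [C_neg, sub_neg_eq_add]
    exact hrm.eq_X_add_C hrn
  set e : K := -r.coeff 0 with he
  rw [hre] at hr
  have hsq' : Squarefree ((X - C a) * (X - C b) * (X - C t) * q) := by
    rw [← hq]
    exact hsq
  have h1 := squarefree_mul_iff.mp hsq'
  have c32 : IsCoprime ((X - C a) * (X - C b) * (X - C t)) q := h1.1.isCoprime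
  have hsq2 : Squarefree ((X - C d) * (X - C e)) := by
    rw [← hr]
    exact h1.2.2
  have cde : IsCoprime (X - C d) (X - C e) := (squarefree_mul_iff.mp hsq2).1.isCoprime
  have hdf : f.IsRoot d := root_of_dvd_lin hqf hd
  have hee : q.IsRoot e := by
    rw [hr]
    simp
  have hef : f.IsRoot e := root_of_dvd_lin hqf hee
  refine ⟨d, e, hdf, hef, ?_, ?_⟩
  · rintro hde
    rw [← hde] at hsq2
    exact not_isUnit_X_sub_C d (hsq2 (X - C d) (dvd_refl _))
  · -- the product of the five ideals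
    have e1 : MI f (X - C a) 0 * MI f (X - C b) 0 = MI f ((X - C a) * (X - C b)) 0 :=
      (mul_cop f _ _ cab).resolve_right (by
        rw [not_not]
        exact ⟨(X - C t) * q, by rw [hq]; ring⟩)
    have e2 : MI f ((X - C a) * (X - C b)) 0 * MI f (X - C t) 0 =
        MI f ((X - C a) * (X - C b) * (X - C t)) 0 :=
      (mul_cop f _ _ cabt).resolve_right (by
        rw [not_not]
        exact ⟨q, hq⟩)
    have e3 : MI f (X - C d) 0 * MI f (X - C e) 0 = MI f q 0 := by
      rw [hr]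
      exact (mul_cop f _ _ cde).resolve_right (by
        rw [not_not, ← hr]
        exact hqf)
    have e4 : MI f ((X - C a) * (X - C b) * (X - C t)) 0 * MI f q 0 =
        MI f ((X - C a) * (X - C b) * (X - C t) * q) 0 :=
      (mul_cop f _ _ c32).resolve_right (by
        rw [not_not, ← hq])
    have e5 : MI f ((X - C a) * (X - C b) * (X - C t) * q) 0 =
        Ideal.span {(⟨0, 1⟩ : Q K f)} := by
      have e6 := MI_ff f
      have e7 : MI f ((X - C a) * (X - C b) * (X - C t) * q) 0 = MI f f 0 := by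
        rw [← hq]
      rw [e7, e6]
    have s1 : MI f (X - C d) 0 * MI f (X - C d) 0 = Ideal.span {(⟨X - C d, 0⟩ : Q K f)} :=
      sq_I mii h2 hsq hdf
    have s2 : MI f (X - C e) 0 * MI f (X - C e) 0 = Ideal.span {(⟨X - C e, 0⟩ : Q K f)} :=
      sq_I mii h2 hsq hef
    rw [e1, e2]
    refine ⟨⟨0, 1⟩, ⟨X - C d, 0⟩ * ⟨X - C e, 0⟩, ?_, mul_ne_zero (lin_ne f d) (lin_ne f e), ?_⟩
    · intro h0
      exact one_ne_zero (congrArg QuadraticAlgebra.im h0)
    · rw [← Ideal.span_singleton_mul_span_singleton, ← e5, ← e4, ← s1, ← s2, ← e3]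
      ring

end

theorem gdd (trl : TrlStatement) (unq : UnqStatement) (mii : MiiStatement)
    (bdk : BdkStatement) : GddStatement := by
  intro K _ f A B a b h2 hfm hf5 hsq hs hG ha hb hab htau
  have hdom : IsDomain (Q K f) := isDomain (g := 2) (by rw [hf5])
  have hf0 : f ≠ 0 := hfm.ne_zero
  have hAr : ∀ x, f.IsRoot x → A.eval x ≠ 0 := by
    intro x hx h0
    have h1 : IsUnit (X - C x) :=
      hG.cop.isUnit_of_dvd' (dvd_iff_isRoot.mpr h0) (dvd_iff_isRoot.mpr hx)
    exact not_isUnit_X_sub_C x h1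
  have hA'r : ∀ (d : K) (A₁ B₁ V₁ : K[X]), f.IsRoot d → Trl f A B d A₁ B₁ V₁ →
      ∀ x, f.IsRoot x → A₁.eval x ≠ 0 := by
    intro d A₁ B₁ V₁ hd hT x hx h0
    by_cases hxd : x = d
    · subst hxd
      have h1 := hT.eva
      rw [h0, zero_mul] at h1
      exact der_ne hsq hx h1.symm
    · have h1 := hT.evb x hx hxd (hAr x hx)
      rw [h0, zero_mul] at h1
      exact mul_ne_zero (sub_ne_zero.mpr (Ne.symm hxd)) (htau d x hd hx (Ne.symm hxd)) h1.symm
  obtain ⟨A', B', V, hT⟩ := trl K f A B a h2 hfm hf5 hsq hG.toMum hG.two ha (hAr a ha)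
  have hG' : Good f A' B' :=
    { hT.mum with two := hT.two, cop := cop_roots hf0 hs (hA'r a A' B' V ha hT) }
  obtain ⟨A'', B'', V', hT'⟩ := trl K f A' B' b h2 hfm hf5 hsq hT.mum hT.two hb
    (hA'r a A' B' V ha hT b hb)
  refine ⟨A', B', V, A'', B'', V', hT, hG', hT', ?_⟩
  by_contra hnG
  -- the ideal of the double translate
  have key : ∃ t x y : K, f.IsRoot t ∧ Mum f (X - C x) (C y) ∧
      MI f (X - C t) 0 * MI f (X - C x) (C y) = MI f A'' B'' := by
    rcases bdk K f A'' B'' h2 hsq hT'.mum hT'.two.le hnG with h | ⟨hd, hB0⟩ | ⟨t, x, y, h⟩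
    · rw [hT'.two] at h
      omega
    · -- the divisor case
      have hex : ∃ c, f.IsRoot c ∧ A''.eval c = 0 := by
        by_contra hcon
        push Not at hcon
        exact hnG { hT'.mum with two := hT'.two, cop := cop_roots hf0 hs hcon }
      obtain ⟨c, hc, hc0⟩ := hex
      obtain ⟨r, hr⟩ := dvd_iff_isRoot.mpr (show A''.IsRoot c from hc0)
      have hrm : r.Monic := by
        have h1 := hT'.mum.monic
        rw [hr] at h1
        exact (monic_X_sub_C c).of_mul_monic_left h1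
      have hrn : r.natDegree = 1 := by
        have h1 := congrArg natDegree hr
        rw [(monic_X_sub_C c).natDegree_mul hrm, natDegree_X_sub_C, hT'.two] at h1
        omega
      have hre : r = X - C (-r.coeff 0) := by
        rw [C_neg, sub_neg_eq_add]
        exact hrm.eq_X_add_C hrn
      generalize -r.coeff 0 = x at hre
      rw [hre] at hr
      have hsq2 : Squarefree ((X - C c) * (X - C x)) := by
        rw [← hr]
        exact hsq.squarefree_of_dvd hd
      have hcx : IsCoprime (X - C c) (X - C x) := (squarefree_mul_iff.mp hsq2).1.isCoprime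
      have hxr : f.IsRoot x := by
        refine root_of_dvd_lin hd ?_
        rw [hr]
        simp
      refine ⟨c, x, 0, hc, ⟨monic_X_sub_C x, ?_, ?_⟩, ?_⟩
      · rw [C_0, degree_zero, degree_X_sub_C]
        exact WithBot.bot_lt_coe 1
      · have e : (C (0 : K)) ^ 2 - f = - f := by
          rw [C_0]
          ring
        rw [e]
        exact (dvd_neg).mpr (dvd_iff_isRoot.mpr hxr)
      · rw [C_0, hr, hB0]
        refine (mul_cop f _ _ hcx).resolve_right ?_
        rw [not_not, ← hr]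
        exact hd
    · exact ⟨t, x, y, h⟩
  obtain ⟨t, x, y, ht, hMx, hI⟩ := key
  -- contradiction from a reduced ideal of degree 2 in the class of a point
  have contra : ∀ A₁ B₁ : K[X], Mum f A₁ B₁ → A₁.natDegree = 2 →
      SameCl (MI f A₁ B₁) (MI f (X - C x) (C y)) → False := by
    intro A₁ B₁ hM₁ hn hsc
    have h1 := (unq K f A₁ B₁ (X - C x) (C y) h2 hsq hf5 hM₁ hMx hn.le
      (by rw [natDegree_X_sub_C]; omega) hsc).1
    rw [h1, natDegree_X_sub_C] at hn
    omega
  have s1 : SameCl (MI f A' B') (MI f A B * MI f (X - C a) 0) := sc_trl mii h2 hsq hT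
  have s2 : SameCl (MI f A'' B'') (MI f A' B' * MI f (X - C b) 0) := sc_trl mii h2 hsq hT'
  have s3 : SameCl (MI f A' B' * MI f (X - C b) 0)
      (MI f (X - C t) 0 * MI f (X - C x) (C y)) := by
    rw [hI]
    exact sc_symm s2
  by_cases htb : t = b
  · -- the case `t = b`
    rw [htb] at s3
    have s4 : SameCl (MI f A' B') (MI f (X - C x) (C y)) :=
      sc_cancel' mii h2 hsq hb (sc_cancel mii h2 hsq hb s3)
    exact contra A' B' hT.mum hT.two s4
  have s5 : SameCl (MI f A B * MI f (X - C a) 0 * MI f (X - C b) 0)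
      (MI f (X - C t) 0 * MI f (X - C x) (C y)) :=
    sc_trans (sc_symm (sc_mul s1 (sc_refl _))) s3
  by_cases hta : t = a
  · -- the case `t = a`
    rw [hta] at s5
    have s6 : SameCl (MI f A B * MI f (X - C b) 0) (MI f (X - C x) (C y)) := by
      refine sc_cancel' mii h2 hsq ha ?_
      have e : MI f A B * MI f (X - C b) 0 * MI f (X - C a) 0 * MI f (X - C a) 0 =
          MI f A B * MI f (X - C a) 0 * MI f (X - C b) 0 * MI f (X - C a) 0 := by
        ring
      rw [e]
      exact sc_cancel mii h2 hsq ha s5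
    obtain ⟨A₁, B₁, V₁, hT₁⟩ := trl K f A B b h2 hfm hf5 hsq hG.toMum hG.two hb (hAr b hb)
    exact contra A₁ B₁ hT₁.mum hT₁.two (sc_trans (sc_trl mii h2 hsq hT₁) s6)
  · -- the general case
    obtain ⟨d, e, hd, he, hde, hsc⟩ := three_two mii h2 hfm hf5 hsq hs ha hb ht hab hta htb
    have s6 : SameCl (MI f A B * MI f (X - C a) 0 * MI f (X - C b) 0 * MI f (X - C t) 0)
        (MI f (X - C x) (C y)) := sc_cancel mii h2 hsq ht s5
    have s7 : SameCl (MI f A B * (MI f (X - C d) 0 * MI f (X - C e) 0))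
        (MI f A B * MI f (X - C a) 0 * MI f (X - C b) 0 * MI f (X - C t) 0) := by
      have e1 : MI f A B * MI f (X - C a) 0 * MI f (X - C b) 0 * MI f (X - C t) 0 =
          MI f A B * (MI f (X - C a) 0 * MI f (X - C b) 0 * MI f (X - C t) 0) := by
        ring
      rw [e1]
      exact sc_mul (sc_refl _) hsc
    obtain ⟨A₁, B₁, V₁, hT₁⟩ := trl K f A B d h2 hfm hf5 hsq hG.toMum hG.two hd (hAr d hd)
    obtain ⟨A₂, B₂, V₂, hT₂⟩ := trl K f A₁ B₁ e h2 hfm hf5 hsq hT₁.mum hT₁.two he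
      (hA'r d A₁ B₁ V₁ hd hT₁ e he)
    have s8 : SameCl (MI f A₁ B₁) (MI f A B * MI f (X - C d) 0) := sc_trl mii h2 hsq hT₁
    have s9 : SameCl (MI f A₂ B₂) (MI f A₁ B₁ * MI f (X - C e) 0) := sc_trl mii h2 hsq hT₂
    have s10 : SameCl (MI f A₁ B₁ * MI f (X - C e) 0)
        (MI f A B * (MI f (X - C d) 0 * MI f (X - C e) 0)) := by
      rw [← mul_assoc]
      exact sc_mul s8 (sc_refl _)
    exact contra A₂ B₂ hT₂.mum hT₂.two (sc_trans s9 (sc_trans s10 (sc_trans s7 s6)))

end Pool.Agent.KDT.H85
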